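import Mathlib

/-!
Abelian difference sets with `λ = 2`: group ring identities, the first multiplier theorem.
-/

set_option linter.unusedSectionVars false

open Finset MonoidAlgebra

namespace Pool.Agent.Lib.MP_0820eb_co

variable {G : Type} [CommGroup G] [Fintype G] [DecidableEq G]

def Rep (D : Finset G) (g : G) : Finset G := D.filter (fun y => g * y ∈ D)

def DS (D : Finset G) : Prop := ∀ g, g ≠ 1 → (Rep D g).card = 2

theorem mem_Rep {D : Finset G} {g y : G} : y ∈ Rep D g ↔ y ∈ D ∧ g * y ∈ D := mem_filter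

theorem conv {A : Type} [CommRing A] (D : Finset G) (f : G → G) (χ : G →* A) :
    (∑ x ∈ D, χ (f x)) * (∑ y ∈ D, χ y⁻¹) =
      ∑ g, ((D.filter (fun x => g⁻¹ * f x ∈ D)).card : A) * χ g := by
  have h : ∀ x, χ (f x) * ∑ y ∈ D, χ y⁻¹ = ∑ g, if g⁻¹ * f x ∈ D then χ g else 0 := by
    intro x
    rw [mul_sum, ← Fintype.sum_ite_mem]
    refine Fintype.sum_equiv ((Equiv.inv G).trans (Equiv.mulLeft (f x))) _ _ fun y => ?_
    simp [mul_comm]
  rw [sum_mul, sum_congr rfl fun x _ => h x, sum_comm]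
  refine sum_congr rfl fun g _ => ?_
  rw [← sum_filter, sum_const, nsmul_eq_mul]

theorem base {A : Type} [CommRing A] {D : Finset G} (hD : DS D) (χ : G →* A) :
    (∑ x ∈ D, χ x) * (∑ y ∈ D, χ y⁻¹) = ((D.card : A) - 2) + 2 * ∑ g, χ g := by
  rw [conv D (fun x => x) χ, mul_sum]
  have h : ∀ g, ((D.filter (fun x => g⁻¹ * x ∈ D)).card : A) * χ g =
      (if g = 1 then (D.card : A) - 2 else 0) + 2 * χ g := by
    intro g
    split_ifs with h1
    · subst h1
      rw [filter_true_of_mem (by simp)]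
      simp
    · have := hD g⁻¹ (inv_ne_one.mpr h1)
      rw [Rep] at this
      rw [this]
      simp
  rw [sum_congr rfl fun g _ => h g, sum_add_distrib]
  simp

theorem count {D : Finset G} (hD : DS D) :
    (D.card : ℤ) * D.card = (D.card : ℤ) - 2 + 2 * Fintype.card G := by
  simpa using base hD (1 : G →* ℤ)

/-- The coefficient functional. -/
noncomputable def cf {A Q : Type} [CommRing A] (u : Q) : MonoidAlgebra A Q →+ A where
  toFun x := x.coeff u
  map_zero' := rfl
  map_add' _ _ := rfl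

theorem cf_of {A Q : Type} [CommRing A] [CommGroup Q] [DecidableEq Q] (u g : Q) (c : A) :
    cf u (single g c) = if g = u then c else 0 := by
  simp [cf, Finsupp.single_apply]

theorem mul_all {A : Type} [CommRing A] (χ : G →* A) (h : G) : χ h * ∑ g, χ g = ∑ g, χ g := by
  rw [mul_sum]
  exact Fintype.sum_equiv (Equiv.mulLeft h) _ _ fun g => by simp

theorem not_dvd_card {D : Finset G} (hD : DS D) {p : ℕ} (hp : p.Prime) (h2 : p ≠ 2)
    (hn : (p : ℤ) ∣ (D.card : ℤ) - 2) : ¬ p ∣ Fintype.card G := by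
  intro hv
  have hp' : Prime (p : ℤ) := Nat.prime_iff_prime_int.mp hp
  have h1 : (p : ℤ) ∣ D.card * D.card := by
    rw [count hD]
    exact hn.add ((Int.natCast_dvd_natCast.mpr hv).mul_left 2)
  have h3 : (p : ℤ) ∣ D.card := (hp'.dvd_or_dvd h1).elim id id
  have h4 : (p : ℤ) ∣ 2 := by simpa using h3.sub hn
  exact h2 ((Nat.prime_dvd_prime_iff_eq hp Nat.prime_two).mp (by exact_mod_cast h4))

theorem first_multiplier {D : Finset G} (hD : DS D) {p : ℕ} (hp : p.Prime) (h2 : p ≠ 2)
    (hn : (p : ℤ) ∣ (D.card : ℤ) - 2) (h0 : 2 < D.card) : ∃ g, ∀ x ∈ D, x ^ p * g ∈ D := by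
  have := Fact.mk hp
  have hcop : (Nat.card G).Coprime p := by
    rw [Nat.card_eq_fintype_card]
    exact ((Nat.Prime.coprime_iff_not_dvd hp).mpr (not_dvd_card hD hp h2 hn)).symm
  let N : G → ℕ := fun g => (D.filter (fun x => g⁻¹ * x ^ p ∈ D)).card
  have hN2 : ∀ g, 2 ≤ N g := by
    intro g
    have : CharP (MonoidAlgebra (ZMod p) G) p :=
      charP_of_injective_algebraMap' (ZMod p) p
    let χ := of (ZMod p) G
    have hk : ((D.card : MonoidAlgebra (ZMod p) G)) = 2 := by
      have := (CharP.intCast_eq_zero_iff (MonoidAlgebra (ZMod p) G) p _).mpr hn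
      push_cast at this
      exact sub_eq_zero.mp this
    have h1 := conv D (fun x => x ^ p) χ
    have h3 := base hD χ
    have h4 : (∑ x ∈ D, χ x) * ∑ g, χ g = 2 * ∑ g, χ g := by
      rw [sum_mul, sum_congr rfl fun x _ => mul_all χ x, sum_const, nsmul_eq_mul, hk]
    have h5 : ∀ i : ℕ, (∑ x ∈ D, χ x) ^ i * ∑ g, χ g = 2 ^ i * ∑ g, χ g := by
      intro i
      induction i with
      | zero => simp
      | succ i ih => rw [pow_succ, mul_assoc, h4, mul_left_comm, ih]; ring
    have h6 : (2 : MonoidAlgebra (ZMod p) G) ^ p = 2 := by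
      rw [← one_add_one_eq_two, add_pow_char, one_pow]
    obtain ⟨q, rfl⟩ : ∃ q, p = q + 1 := ⟨p - 1, by have := hp.pos; omega⟩
    simp only [map_pow] at h1
    rw [← sum_pow_char, pow_succ, mul_assoc, h3, hk, sub_self, zero_add, mul_left_comm, h5,
      ← mul_assoc, ← pow_succ', h6] at h1
    have h7 := congrArg (cf g) h1
    simp only [χ, of_apply, mul_sum, natCast_def, ofNat_def, single_mul_single, map_sum, cf_of,
      one_mul, mul_one, sum_ite_eq', mem_univ, if_true] at h7
    have h8 : ((2 : ℕ) : ZMod (q + 1)) = (N g : ZMod (q + 1)) := by exact_mod_cast h7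
    have h9 := (ZMod.natCast_eq_natCast_iff' _ _ _).mp h8
    have h10 : 2 < q + 1 := lt_of_le_of_ne hp.two_le (Ne.symm h2)
    rw [Nat.mod_eq_of_lt h10] at h9
    exact h9 ▸ Nat.mod_le _ _
  have hs1 : ∑ g, (N g : ℤ) = D.card * D.card := by
    simpa using (conv D (fun x => x ^ p) (1 : G →* ℤ)).symm
  have hs2 : ∑ g, (N g : ℤ) * N g = (D.card - 2) ^ 2 + 4 * (D.card - 2) + 4 * Fintype.card G := by
    let χ := of ℤ G
    have h1 := conv D (fun x => x ^ p) χ
    have h1' := conv D (fun x => x ^ p) (χ.comp invMonoidHom)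
    have h3 := base hD χ
    have h4 := base hD (χ.comp (powMonoidHom p))
    have h5 : ∑ g, χ (g ^ p) = ∑ g, χ g := Fintype.sum_equiv (powCoprime hcop) _ _ fun g => rfl
    have h6 : (∑ g, χ g) * ∑ g, χ g = Fintype.card G * ∑ g, χ g := by
      rw [sum_mul, sum_congr rfl fun x _ => mul_all χ x, sum_const, nsmul_eq_mul, card_univ]
    simp only [MonoidHom.comp_apply, invMonoidHom_apply, powMonoidHom_apply, inv_inv, h5,
      inv_pow] at h1' h4
    have h7 : (∑ g, (N g : MonoidAlgebra ℤ G) * χ g) * ∑ g, (N g : MonoidAlgebra ℤ G) * χ g⁻¹ =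
        (D.card - 2) * (D.card - 2) + (4 * (D.card - 2) + 4 * Fintype.card G) * ∑ g, χ g := by
      rw [← h1, ← h1', mul_mul_mul_comm, h4, mul_comm (∑ y ∈ D, χ y⁻¹), h3]
      linear_combination 4 * h6
    have h8 := congrArg (cf 1) h7
    simp only [χ, of_apply, mul_sum, sum_mul, natCast_def, ofNat_def, single_mul_single, map_sum,
      cf_of, one_mul, mul_one, ← single_sub, ← single_add, map_add, mul_inv_eq_one,
      sum_ite_eq', mem_univ, if_true] at h8
    linear_combination h8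
  have hc := count hD
  have hs3 : ∑ g, ((N g : ℤ) - 2) * (D.card - N g) = 0 := by
    have : ∀ g, ((N g : ℤ) - 2) * (D.card - N g) = (D.card + 2) * N g - N g * N g - 2 * D.card :=
      fun g => by ring
    simp only [this, sum_sub_distrib, ← mul_sum, hs1, hs2, sum_const, card_univ, nsmul_eq_mul]
    linear_combination ((D.card : ℤ) + 2) * hc
  have hle : ∀ g, N g ≤ D.card := fun g => card_filter_le _ _
  rw [sum_eq_zero_iff_of_nonneg fun g _ => mul_nonneg (by linarith [hN2 g]) (by linarith [hle g])]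
    at hs3
  by_contra hno
  push Not at hno
  have h2' : ∀ g, (N g : ℤ) = 2 := by
    intro g
    rcases mul_eq_zero.mp (hs3 g (mem_univ _)) with h | h
    · linarith
    · exfalso
      have h1 : N g = D.card := by omega
      obtain ⟨x, hx, hx'⟩ := hno g⁻¹
      exact hx' (mul_comm g⁻¹ _ ▸ (card_filter_eq_iff.mp h1) x hx)
  simp only [h2', sum_const, card_univ, nsmul_eq_mul] at hs1
  have : (2 : ℤ) < D.card := by exact_mod_cast h0
  linarith

theorem multiplier {D : Finset G} (hD : DS D) (h0 : 2 < D.card) {t : ℕ} (ht : Odd t)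
    (hn : (t : ℤ) ∣ (D.card : ℤ) - 2) : ∃ g, ∀ x ∈ D, x ^ t * g ∈ D := by
  induction t using induction_on_primes with
  | zero => simp at ht
  | one => exact ⟨1, by simp⟩
  | prime_mul p a hp ih =>
    rw [Nat.odd_mul] at ht
    push_cast at hn
    obtain ⟨g, hg⟩ := ih ht.2 (Dvd.dvd.trans (Dvd.intro_left _ rfl) hn)
    obtain ⟨g', hg'⟩ := first_multiplier hD hp (by rintro rfl; exact absurd ht.1 (by decide))
      (Dvd.dvd.trans (Dvd.intro _ rfl) hn) h0
    exact ⟨g' ^ a * g, fun x hx => by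
      have := hg _ (hg' x hx)
      rwa [mul_pow, ← pow_mul, mul_assoc] at this⟩

theorem sum_perm {A : Type} [AddCommMonoid A] {D : Finset G} {f : G → G}
    (hf : Function.Injective f) (h : ∀ x ∈ D, f x ∈ D) (F : G → A) :
    ∑ x ∈ D, F (f x) = ∑ x ∈ D, F x := by
  have e : D.image f = D := eq_of_subset_of_card_le (image_subset_iff.mpr h)
    (by rw [card_image_of_injective _ hf])
  conv_rhs => rw [← e, sum_image fun x _ y _ hxy => hf hxy]

theorem fix_translate {D : Finset G} (hD : DS D) (h0 : 2 < D.card) {t : ℕ}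
    (ht : (Nat.card G).Coprime (t + 1)) {g : G} (h : ∀ x ∈ D, x ^ (t + 1) * g ∈ D) :
    ∃ h : G, h ^ t = g := by
  classical
  let U := (powMonoidHom t : G →* G).range
  let χ := (of ℤ (G ⧸ U)).comp (QuotientGroup.mk' U)
  have h1 : ∀ x, χ (x ^ (t + 1)) = χ x := fun x => by
    have : QuotientGroup.mk' U (x ^ t) = 1 := (QuotientGroup.eq_one_iff _).mpr ⟨x, rfl⟩
    simp only [χ, MonoidHom.comp_apply, pow_succ, map_mul, this, map_one, one_mul]
  have h2 : (∑ x ∈ D, χ x) * χ g = ∑ x ∈ D, χ x := by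
    rw [← sum_perm (f := fun x => x ^ (t + 1) * g)
      ((mul_left_injective g).comp (powCoprime ht).injective) h χ, sum_mul]
    conv_lhs => rw [← sum_mul, sum_perm (f := fun x => x ^ (t + 1) * g)
      ((mul_left_injective g).comp (powCoprime ht).injective) h χ, sum_mul]
    exact sum_congr rfl fun x _ => by rw [map_mul, h1]
  have h3 := base hD χ
  have h4 := mul_all χ g
  have h5 : ((D.card : MonoidAlgebra ℤ (G ⧸ U)) - 2) * χ g = D.card - 2 := by
    linear_combination (∑ y ∈ D, χ y⁻¹) * h2 - (χ g - 1) * h3 - 2 * h4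
  have h6 := congrArg (cf 1) h5
  simp only [χ, MonoidHom.comp_apply, of_apply, natCast_def, ofNat_def, single_mul_single, cf_of,
    one_mul, mul_one, ← single_sub, if_true] at h6
  split_ifs at h6 with h7
  · exact (QuotientGroup.eq_one_iff _).mp h7
  · have : (2 : ℤ) < D.card := by exact_mod_cast h0
    linarith

theorem DS.translate {D : Finset G} (hD : DS D) (h : G) : DS (D.image (· * h)) := by
  intro g hg
  rw [← hD g hg]
  have m : ∀ y, y * h ∈ D.image (· * h) ↔ y ∈ D := fun y =>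
    (mul_left_injective h).mem_finset_image
  have : Rep (D.image (· * h)) g = (Rep D g).image (· * h) := by
    rw [Rep, filter_image, Rep]
    simp only [← mul_assoc, m]
  rw [this, card_image_of_injective _ (mul_left_injective h)]

theorem exists_fixed {D : Finset G} (hD : DS D) (h0 : 2 < D.card) {t : ℕ} (ht : Odd t)
    (hn : (t : ℤ) ∣ (D.card : ℤ) - 2) (hc : (Nat.card G).Coprime t) :
    ∃ D' : Finset G, DS D' ∧ D'.card = D.card ∧ ∀ x ∈ D', x ^ t ∈ D' := by
  obtain ⟨g, hg⟩ := multiplier hD h0 ht hn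
  obtain ⟨s, rfl⟩ : ∃ s, t = s + 1 := ⟨t - 1, by have := ht.pos; omega⟩
  obtain ⟨h, rfl⟩ := fix_translate hD h0 hc hg
  refine ⟨_, hD.translate h, card_image_of_injective _ (mul_left_injective h), fun x hx => ?_⟩
  obtain ⟨y, hy, rfl⟩ := mem_image.mp hx
  exact mem_image.mpr ⟨_, hg y hy, by rw [mul_pow, pow_succ h, mul_assoc]⟩

theorem rigid {D : Finset G} (hD : DS D) {p : ℕ} (hp : p.Prime) (h2 : p ≠ 2)
    (hn : (p : ℤ) ∣ (D.card : ℤ) - 2) {τ : G → G} (hτ : Function.Injective τ)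
    (hτD : ∀ x ∈ D, τ x ∈ D) (U : Subgroup G) [DecidablePred (· ∈ U)] (hU : ∀ x, x * τ x ∈ U)
    (g g' : G) : (D.filter (fun x => g⁻¹ * x ∈ U)).card ≡ (D.filter (fun x => g'⁻¹ * x ∈ U)).card
      [MOD p] := by
  classical
  have := Fact.mk hp
  have : NeZero (Nat.card (G ⧸ U) : ZMod p) := ⟨by
    rw [Ne, ZMod.natCast_eq_zero_iff]
    intro h
    apply not_dvd_card hD hp h2 hn
    rw [← Nat.card_eq_fintype_card]
    exact h.trans (Subgroup.card_quotient_dvd_card U)⟩
  have : CharP (MonoidAlgebra (ZMod p) (G ⧸ U)) p := charP_of_injective_algebraMap' (ZMod p) p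
  let χ := (of (ZMod p) (G ⧸ U)).comp (QuotientGroup.mk' U)
  have hk : ((D.card : MonoidAlgebra (ZMod p) (G ⧸ U))) - 2 = 0 := by
    have := (CharP.intCast_eq_zero_iff (MonoidAlgebra (ZMod p) (G ⧸ U)) p _).mpr hn
    push_cast at this
    exact this
  have h1 : ∑ y ∈ D, χ y⁻¹ = ∑ y ∈ D, χ y := by
    rw [← sum_perm hτ hτD χ]
    refine sum_congr rfl fun y _ => ?_
    have : QuotientGroup.mk' U y⁻¹ = QuotientGroup.mk' U (τ y) :=
      QuotientGroup.eq.mpr (by simpa using hU y)
    simp only [χ, MonoidHom.comp_apply, this]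
  have h3 := base hD χ
  rw [h1, hk, zero_add] at h3
  have h4 := mul_all χ g
  have h4' := mul_all χ g'
  have h5 : (∑ y ∈ D, χ y) * χ g⁻¹ = (∑ y ∈ D, χ y) * χ g'⁻¹ := by
    rw [← sub_eq_zero]
    refine IsReduced.eq_zero _ ⟨2, ?_⟩
    linear_combination (χ g⁻¹ - χ g'⁻¹) ^ 2 * h3 + 2 * (χ g⁻¹ - χ g'⁻¹) * (mul_all χ g⁻¹) -
      2 * (χ g⁻¹ - χ g'⁻¹) * (mul_all χ g'⁻¹)
  have h6 := congrArg (cf 1) h5
  have h7 : ∀ g : G, cf 1 ((∑ y ∈ D, χ y) * χ g⁻¹) =
      ((D.filter (fun x => g⁻¹ * x ∈ U)).card : ZMod p) := fun g => by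
    rw [sum_mul, map_sum, card_filter, Nat.cast_sum]
    refine sum_congr rfl fun y _ => ?_
    rw [← map_mul, mul_comm]
    simp only [χ, MonoidHom.comp_apply, of_apply, cf_of, QuotientGroup.mk'_apply,
      QuotientGroup.eq_one_iff]
    split_ifs <;> simp
  rw [h7, h7] at h6
  exact (ZMod.natCast_eq_natCast_iff _ _ _).mp h6

theorem square_of_index_two {D : Finset G} (hD : DS D) (H : Subgroup G) (hH : H.index = 2) :
    ∃ m : ℤ, (D.card : ℤ) - 2 = m * m := by
  classical
  let χ : G →* ℤ :=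
    { toFun := fun g => if g ∈ H then 1 else -1
      map_one' := by simp
      map_mul' := fun a b => by
        simp only [Subgroup.mul_mem_iff_of_index_two hH]
        by_cases ha : a ∈ H <;> by_cases hb : b ∈ H <;> simp [ha, hb] }
  have h1 : ∀ y, χ y⁻¹ = χ y := fun y => by simp [χ]
  obtain ⟨g, hg⟩ : ∃ g, g ∉ H := by
    by_contra h
    push Not at h
    rw [(Subgroup.eq_top_iff' H).mpr h, Subgroup.index_top] at hH
    omega
  have h2 := mul_all χ g
  have h3 : χ g = -1 := by simp [χ, hg]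
  have h4 := base hD χ
  simp only [h1] at h4
  rw [h3] at h2
  exact ⟨∑ x ∈ D, χ x, by linarith⟩

end Pool.Agent.Lib.MP_0820eb_co
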