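import Pool.Agent.Lib.MP_0820eb_co.Basic

/-!
No multiplier of order four.
-/

set_option linter.unusedSectionVars false

open Finset MonoidAlgebra

namespace Pool.Agent.Lib.MP_0820eb_co

variable {G : Type} [CommGroup G] [Fintype G] [DecidableEq G]

theorem pair_mem {s : Finset G} (h : s.card ≤ 2) {a b c : G} (ha : a ∈ s) (hb : b ∈ s)
    (hc : c ∈ s) (hab : a ≠ b) : c = a ∨ c = b := by
  by_contra hn
  push Not at hn
  have : 2 < s.card := two_lt_card_iff.mpr ⟨a, b, c, ha, hb, hc, hab, hn.1.symm, hn.2.symm⟩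
  omega

theorem fix_all {s : Finset G} (h : s.card = 2) {f : G → G} (hf : Function.Injective f)
    (hs : ∀ x ∈ s, f x ∈ s) {a : G} (ha : a ∈ s) (hfa : f a = a) : ∀ b ∈ s, f b = b := by
  intro b hb
  by_cases hab : a = b
  · exact hab ▸ hfa
  rcases pair_mem h.le ha hb (hs b hb) hab with h1 | h1
  · exact absurd (hf (hfa.trans h1.symm)) hab
  · exact h1

theorem other {s : Finset G} (h : s.card = 2) (a : G) : ∃ b ∈ s, b ≠ a :=
  exists_mem_ne (by omega) a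

theorem no_four {D : Finset G} (hD : DS D) {p : ℕ} (hp : p.Prime) (h2 : p ≠ 2)
    (hn : (p : ℤ) ∣ (D.card : ℤ) - 2) (h0 : 2 < D.card) (σ : G →* G) (hσD : ∀ x ∈ D, σ x ∈ D)
    (h4 : ∀ x, σ (σ (σ (σ x))) = x) (hσι : ∀ x, x * x = 1 → σ x = x)
    (hev : 2 ∣ Fintype.card G) : ∀ x, σ (σ x) = x := by
  classical
  by_contra hne
  push Not at hne
  obtain ⟨x₀, hx₀⟩ := hne
  let τ : G →* G := σ.comp σ
  have hττ : ∀ x, τ (τ x) = x := h4
  have hτi : Function.Injective τ := Function.LeftInverse.injective hττ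
  have hσi : Function.Injective σ := Function.Injective.of_comp (f := σ) hτi
  have hτD : ∀ x ∈ D, τ x ∈ D := fun x hx => hσD _ (hσD x hx)
  let N : Subgroup G := (MonoidHom.id G * τ).range
  have hN : ∀ x, x * τ x ∈ N := fun x => ⟨x, rfl⟩
  have hNF : ∀ x ∈ N, τ x = x := by
    rintro _ ⟨y, rfl⟩
    change τ (y * τ y) = y * τ y
    rw [map_mul, hττ, mul_comm]
  let π : G →* G := MonoidHom.id G * τ.comp invMonoidHom
  have hπ : ∀ x, π x = x * (τ x)⁻¹ := fun x => by simp [π]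
  have hπ1 : ∀ x, π x = 1 ↔ τ x = x := fun x => by rw [hπ, mul_inv_eq_one, eq_comm]
  let c : G → Finset G := fun g => D.filter (fun x => g⁻¹ * x ∈ N)
  have mc : ∀ {g x}, x ∈ c g ↔ x ∈ D ∧ g⁻¹ * x ∈ N := mem_filter
  let Fib : G → Finset G := fun g => D.filter (fun x => π x = π g)
  have hFib : ∀ g, τ g ≠ g → (Fib g).card ≤ 2 := by
    intro g hg
    rw [← hD (π g) (fun h => hg ((hπ1 g).mp h))]
    refine card_le_card_of_injOn τ (fun x hx => ?_) hτi.injOn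
    obtain ⟨h1, h2⟩ := mem_filter.mp hx
    exact mem_Rep.mpr ⟨hτD x h1, by rw [← h2, hπ, inv_mul_cancel_right]; exact h1⟩
  have hcF : ∀ g f, τ f = f → c (g * f) ⊆ Fib g := by
    intro g f hf x hx
    obtain ⟨h1, h2⟩ := mc.mp hx
    refine mem_filter.mpr ⟨h1, ?_⟩
    have h3 := (hπ1 _).mpr (hNF _ h2)
    rw [map_mul, map_inv, map_mul, (hπ1 f).mpr hf, mul_one, inv_mul_eq_one] at h3
    exact h3.symm
  have hc2 : ∀ g, τ g ≠ g → (c g).card ≤ 2 := fun g hg =>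
    (card_le_card (by simpa using hcF g 1 (map_one τ))).trans (hFib g hg)
  obtain ⟨y₀, hy₀D, hy₀⟩ : ∃ y ∈ D, τ y ≠ y := by
    by_contra h
    push Not at h
    obtain ⟨z, hz, -⟩ := other (hD x₀ (by rintro rfl; simp at hx₀)) 1
    have h1 := h _ (mem_Rep.mp hz).2
    rw [map_mul, h _ (mem_Rep.mp hz).1, mul_left_inj] at h1
    exact hx₀ h1
  have hp3 : 2 < p := lt_of_le_of_ne hp.two_le (Ne.symm h2)
  have hceq : ∀ g, τ g ≠ g → (c g).card = (c y₀).card := fun g hg =>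
    (rigid hD hp h2 hn hτi hτD N hN g y₀).eq_of_lt_of_lt ((hc2 g hg).trans_lt hp3)
      ((hc2 y₀ hy₀).trans_lt hp3)
  have hy₀c : y₀ ∈ c y₀ := mc.mpr ⟨hy₀D, by simp⟩
  have hcne : ∀ g, τ g ≠ g → ∃ y, y ∈ c g := fun g hg =>
    card_pos.mp (by rw [hceq g hg]; exact card_pos.mpr ⟨_, hy₀c⟩)
  have hnoinv : ∀ g, π g * π g = 1 → π g = 1 := by
    intro g hg
    by_contra h1
    have hg' : τ g ≠ g := fun h => h1 ((hπ1 g).mpr h)
    obtain ⟨y, hy⟩ := hcne g hg'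
    obtain ⟨hyD, hy'⟩ := mem_filter.mp (hcF g 1 (map_one τ) (by simpa using hy))
    have e1 : π g * τ y = y := by rw [← hy', hπ, inv_mul_cancel_right]
    have e2 : π g * y = τ y := by
      conv_lhs => rw [← e1, ← mul_assoc, hg, one_mul]
    have hyy : y ≠ τ y := fun h => h1 (hy' ▸ (hπ1 y).mpr h.symm)
    rcases pair_mem (hD _ h1).le (mem_Rep.mpr ⟨hyD, e2 ▸ hτD y hyD⟩)
      (mem_Rep.mpr ⟨hτD y hyD, e1.symm ▸ hyD⟩) (c := σ y) (mem_Rep.mpr ⟨hσD y hyD, by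
        rw [← hσι _ hg, ← map_mul, e2]; exact hσD _ (hτD y hyD)⟩) hyy with h | h
    · exact hyy (by change y = σ (σ y); rw [h, h])
    · have h' : y = σ y := hσi h
      exact hyy (by change y = σ (σ y); rw [← h', ← h'])
  have hNsq : ∀ x ∈ N, ∃ f, τ f = f ∧ f * f = x := by
    rintro _ ⟨x, rfl⟩
    change ∃ f, τ f = f ∧ f * f = x * τ x
    obtain ⟨j, hj | hj⟩ := Nat.even_or_odd' (orderOf (π x))
    · exfalso
      have h1 := hnoinv (x ^ j) (by rw [map_pow, ← pow_add, ← two_mul, ← hj, pow_orderOf_eq_one])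
      rw [map_pow] at h1
      have h3 := Nat.le_of_dvd (by have := orderOf_pos (π x); omega) (orderOf_dvd_of_pow_eq_one h1)
      have := orderOf_pos (π x)
      omega
    · have h1 : τ (x ^ (2 * j + 1)) = x ^ (2 * j + 1) :=
        (hπ1 _).mp (by rw [map_pow, ← hj, pow_orderOf_eq_one])
      refine ⟨x ^ (2 * j + 1) * ((x * τ x) ^ j)⁻¹, by
        rw [map_mul, h1, map_inv, map_pow, hNF _ (hN x)], ?_⟩
      have h3 : x ^ (2 * j + 1) * x ^ (2 * j + 1) = (x * τ x) ^ j * (x * τ x) ^ j * (x * τ x) := by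
        nth_rewrite 2 [← h1]
        rw [map_pow, ← mul_pow, ← pow_add, ← pow_succ, two_mul]
      rw [mul_mul_mul_comm, h3, ← mul_inv, mul_comm, inv_mul_cancel_left]
  obtain ⟨ι, hι⟩ := exists_prime_orderOf_dvd_card 2 hev
  have hι1 : ι ≠ 1 := by rintro rfl; simp at hι
  have hι2 : ι * ι = 1 := by rw [← sq, ← hι, pow_orderOf_eq_one]
  have hτι : ∀ x, x * x = 1 → τ x = x := fun x hx => by
    change σ (σ x) = x
    rw [hσι x hx, hσι x hx]
  let F : Subgroup G := τ.eqLocus (MonoidHom.id G)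
  let sqF : F →* F := powMonoidHom 2
  obtain ⟨⟨f₀, hf₀⟩, hf₀'⟩ : ∃ f : F, f ∉ sqF.range := by
    by_contra h
    push Not at h
    have := Finite.injective_iff_surjective.mpr (show Function.Surjective sqF from h)
    exact hι1 (congrArg Subtype.val ((injective_iff_map_eq_one sqF).mp this ⟨ι, hτι ι hι2⟩
      (Subtype.ext (by simpa [sqF, sq] using hι2))))
  change τ f₀ = f₀ at hf₀
  have hf₀N : f₀ ∉ N := fun h => by
    obtain ⟨f, h1, h2⟩ := hNsq _ h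
    exact hf₀' ⟨⟨f, h1⟩, Subtype.ext (by simpa [sqF, sq] using h2)⟩
  have hyf : ∀ f, τ f = f → τ (y₀ * f) ≠ y₀ * f := fun f hf h => by
    rw [map_mul, hf, mul_left_inj] at h
    exact hy₀ h
  have hdis : ∀ g f f' x, x ∈ c (g * f) → x ∈ c (g * f') → f * f'⁻¹ ∈ N := by
    intro g f f' x h1 h2
    have e : f * f'⁻¹ = (g * f')⁻¹ * x * ((g * f)⁻¹ * x)⁻¹ := by
      apply Additive.ofMul.injective; simp only [ofMul_mul, ofMul_inv]; abel
    exact e ▸ N.mul_mem (mc.mp h2).2 (N.inv_mem (mc.mp h1).2)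
  obtain ⟨y₁, hy₁⟩ := hcne _ (hyf f₀ hf₀)
  have hy₀c' : y₀ ∈ c (y₀ * 1) := by simpa using hy₀c
  have hy01 : y₀ ≠ y₁ := fun h => hf₀N (by simpa using hdis y₀ f₀ 1 y₁ hy₁ (h ▸ hy₀c'))
  have hsplit : ∀ f, τ f = f → ∀ y ∈ c (y₀ * f), (y = y₀ ∧ f ∈ N) ∨ (y = y₁ ∧ f * f₀⁻¹ ∈ N) := by
    intro f hf y hy
    rcases pair_mem (hFib y₀ hy₀) (hcF y₀ 1 (map_one τ) hy₀c') (hcF y₀ f₀ hf₀ hy₁)
      (hcF y₀ f hf hy) hy01 with h | h
    · exact Or.inl ⟨h, by simpa using hdis y₀ f 1 y hy (h ▸ hy₀c')⟩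
    · exact Or.inr ⟨h, hdis y₀ f f₀ y hy (h ▸ hy₁)⟩
  have hcos : ∀ f, τ f = f → f ∈ N ∨ f * f₀⁻¹ ∈ N := fun f hf => by
    obtain ⟨y, hy⟩ := hcne _ (hyf f hf)
    exact (hsplit f hf y hy).imp And.right And.right
  have hc1 : (c y₀).card = 1 := by
    refine card_eq_one.mpr ⟨y₀, eq_singleton_iff_unique_mem.mpr ⟨hy₀c, fun y hy => ?_⟩⟩
    rcases hsplit 1 (map_one τ) y (by simpa using hy) with h | h
    · exact h.1
    · exact absurd (by simpa using h.2) hf₀N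
  have huniq : ∀ x, x * x = 1 → x = 1 ∨ x = ι := by
    intro x hx
    have h1 : sqF.range.index ∣ 2 := by
      refine Subgroup.index_dvd_two_iff.mpr ⟨⟨f₀, hf₀⟩⁻¹, fun b => ?_⟩
      rcases hcos b b.2 with h | h
      · obtain ⟨f, h1, h2⟩ := hNsq _ h
        exact Or.inr ⟨⟨f, h1⟩, Subtype.ext (by simpa [sqF, sq] using h2)⟩
      · obtain ⟨f, h1, h2⟩ := hNsq _ h
        exact Or.inl ⟨⟨f, h1⟩, Subtype.ext (by simpa [sqF, sq] using h2)⟩
    rw [Subgroup.index_range, Nat.card_eq_fintype_card, Fintype.card_subtype] at h1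
    have h3 := Nat.le_of_dvd two_pos h1
    by_contra hc
    push Not at hc
    have m : ∀ y (hy : y * y = 1), (⟨y, hτι y hy⟩ : F) ∈ univ.filter (· ∈ sqF.ker) := fun y hy =>
      mem_filter.mpr ⟨mem_univ _, Subtype.ext (by simpa [sqF, sq] using hy)⟩
    have : 2 < (univ.filter (· ∈ sqF.ker)).card := two_lt_card_iff.mpr ⟨_, _, _, m 1 (mul_one 1),
      m ι hι2, m x hx, fun h => hι1 (congrArg Subtype.val h).symm,
      fun h => hc.1 (congrArg Subtype.val h).symm, fun h => hc.2 (congrArg Subtype.val h).symm⟩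
    omega
  have hcc : ∀ g g', g⁻¹ * g' ∈ N → c g = c g' := fun g g' h => filter_congr fun x _ => by
    have : g⁻¹ * x = (g⁻¹ * g') * (g'⁻¹ * x) := by group
    rw [this, Subgroup.mul_mem_cancel_left _ h]
  obtain ⟨k1, k2⟩ : ((c 1).card - 1 : ℤ) * ((c f₀).card - 1) = 0 ∧
      ((c 1).card - 1 : ℤ) ^ 2 + ((c f₀).card - 1) ^ 2 = D.card - 2 := by
    let χ := (of ℤ (G ⧸ N)).comp (QuotientGroup.mk' N)
    have h1 : ∑ y ∈ D, χ y⁻¹ = ∑ y ∈ D, χ y := by
      rw [← sum_perm hτi hτD χ]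
      refine sum_congr rfl fun y _ => ?_
      have : QuotientGroup.mk' N y⁻¹ = QuotientGroup.mk' N (τ y) :=
        QuotientGroup.eq.mpr (by simpa using hN y)
      simp only [χ, MonoidHom.comp_apply, this]
    have h3 := base hD χ
    have hcf : ∀ (g x : G) (a : ℤ), cf (g : G ⧸ N) ((a : MonoidAlgebra ℤ (G ⧸ N)) * χ x) =
        if g⁻¹ * x ∈ N then a else 0 := by
      intro g x a
      simp only [χ, MonoidHom.comp_apply, of_apply, QuotientGroup.mk'_apply, intCast_def,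
        single_mul_single, cf_of, one_mul, mul_one, Int.cast_id, eq_comm (b := (g : G ⧸ N)),
        QuotientGroup.eq]
    set e₁ : ℤ := (c 1).card - 1
    set e₂ : ℤ := (c f₀).card - 1
    have h5 : ∑ y ∈ D, χ y = ∑ u, of ℤ (G ⧸ N) u + e₁ * χ 1 + e₂ * χ f₀ := by
      ext u
      obtain ⟨g, rfl⟩ := QuotientGroup.mk_surjective u
      change cf (g : G ⧸ N) (∑ y ∈ D, χ y) =
        cf (g : G ⧸ N) (∑ u, of ℤ (G ⧸ N) u + (e₁ : MonoidAlgebra ℤ (G ⧸ N)) * χ 1 +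
          (e₂ : MonoidAlgebra ℤ (G ⧸ N)) * χ f₀)
      have h6 : cf (g : G ⧸ N) (∑ y ∈ D, χ y) = (c g).card := by
        rw [map_sum, card_filter, Nat.cast_sum]
        refine sum_congr rfl fun y _ => ?_
        simpa using hcf g y 1
      have h6' : cf (g : G ⧸ N) (∑ u, of ℤ (G ⧸ N) u) = 1 := by
        rw [map_sum, sum_eq_single (g : G ⧸ N) (fun u _ hu => by rw [of_apply, cf_of, if_neg hu])
          (by simp), of_apply, cf_of, if_pos rfl]
      rw [h6, map_add, map_add, hcf, hcf, h6']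
      by_cases a1 : g⁻¹ * 1 ∈ N
      · rw [if_pos a1, if_neg (fun a2 => hf₀N ((N.mul_mem_cancel_left (by simpa using a1)).mp a2)),
          hcc g 1 a1]
        simp [e₁]
      by_cases a2 : g⁻¹ * f₀ ∈ N
      · rw [if_neg a1, if_pos a2, hcc g f₀ a2]
        simp [e₂]
      rw [if_neg a1, if_neg a2, hceq g (fun h => ?_), hc1]
      · simp
      · rcases hcos g h with h | h
        · exact a1 (by simpa using h)
        · exact a2 (by simpa [mul_comm] using N.inv_mem h)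
    have h7 : χ f₀ * χ f₀ = 1 := by
      have : QuotientGroup.mk' N (f₀ * f₀) = 1 :=
        (QuotientGroup.eq_one_iff _).mpr (by simpa [hf₀] using hN f₀)
      rw [← map_mul]
      simp only [χ, MonoidHom.comp_apply, this, map_one]
    have t1 : χ f₀ * ∑ u, of ℤ (G ⧸ N) u = ∑ u, of ℤ (G ⧸ N) u := mul_all _ _
    have t2 : χ y₀ * ∑ u, of ℤ (G ⧸ N) u = ∑ u, of ℤ (G ⧸ N) u := mul_all _ _
    have h8 : ((e₁ ^ 2 + e₂ ^ 2 - (D.card - 2) : ℤ) : MonoidAlgebra ℤ (G ⧸ N)) * χ f₀ +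
        (2 * (e₁ * e₂) : ℤ) * χ 1 = (e₁ ^ 2 + e₂ ^ 2 - (D.card - 2) : ℤ) * χ y₀ +
        (2 * (e₁ * e₂) : ℤ) * χ (f₀ * y₀) := by
      rw [h1, h5] at h3
      rw [map_mul]
      simp only [map_one] at h3 ⊢
      push_cast
      linear_combination (χ f₀ - χ y₀) * h3 + 2 * mul_all χ f₀ - 2 * mul_all χ y₀ -
        (∑ u, of ℤ (G ⧸ N) u + 2 * e₁ + 2 * e₂ * χ f₀) * (t1 - t2) -
        (e₂ ^ 2 * (χ f₀ - χ y₀) + 2 * e₁ * e₂) * h7
    have n1 : y₀ ∉ N := fun h => hy₀ (hNF _ h)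
    have n2 : f₀ * y₀ ∉ N := fun h => hyf f₀ hf₀ (mul_comm f₀ y₀ ▸ hNF _ h)
    have n3 : f₀⁻¹ * y₀ ∉ N := fun h => hyf f₀⁻¹ (by rw [map_inv, hf₀]) (mul_comm f₀⁻¹ y₀ ▸ hNF _ h)
    have h9 := congrArg (cf ((1 : G) : G ⧸ N)) h8
    have h10 := congrArg (cf (f₀ : G ⧸ N)) h8
    simp only [map_add, hcf, inv_one, one_mul, mul_one, inv_mul_cancel, inv_mul_cancel_left,
      inv_mem_iff, hf₀N, n1, n2, n3, N.one_mem, if_true, if_false] at h9 h10
    exact ⟨by linarith, by linarith⟩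
  obtain ⟨f, hf, hf1, hf2⟩ : ∃ f, τ f = f ∧ (c f).card = 1 ∧
      ((c (f * f₀)).card - 1 : ℤ) ^ 2 = D.card - 2 := by
    rcases mul_eq_zero.mp k1 with h | h
    · exact ⟨1, map_one τ, by omega, by rw [one_mul, ← k2, h]; ring⟩
    · refine ⟨f₀, hf₀, by omega, ?_⟩
      rw [← hcc 1 (f₀ * f₀) (by simpa [hf₀] using hN f₀), ← k2, h]; ring
  obtain ⟨z, hz⟩ := card_eq_one.mp hf1
  obtain ⟨hzD, hzN⟩ := mc.mp (hz ▸ mem_singleton_self z : z ∈ c f)
  have hzu : ∀ x ∈ D, f⁻¹ * x ∈ N → x = z := fun x h1 h2 =>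
    mem_singleton.mp (hz ▸ mc.mpr ⟨h1, h2⟩)
  have hτz : τ z = z := by
    have := hNF _ hzN
    rwa [map_mul, map_inv, hf, mul_right_inj] at this
  have hRτ : ∀ g, g ≠ 1 → τ g = g → ∀ a ∈ Rep D g, τ a = a → ∀ b ∈ Rep D g, τ b = b :=
    fun g h1 hg a ha ha' => fix_all (hD g h1) hτi (fun x hx => mem_Rep.mpr
      ⟨hτD x (mem_Rep.mp hx).1, by rw [← hg, ← map_mul]; exact hτD _ (mem_Rep.mp hx).2⟩) ha ha'
  have hsym : ∀ x ∈ D, τ x = x → z * z * x⁻¹ ∈ D := by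
    intro x hx hτx
    by_cases h1 : f⁻¹ * x ∈ N
    · rw [hzu x hx h1, mul_inv_cancel_right]; exact hzD
    have hg : z * x⁻¹ ≠ 1 := fun h => h1 (mul_inv_eq_one.mp h ▸ hzN)
    obtain ⟨w, hw, hwx⟩ := other (hD _ hg) x
    have hτw := hRτ _ hg (by rw [map_mul, map_inv, hτz, hτx]) x
      (mem_Rep.mpr ⟨hx, by simpa using hzD⟩) hτx w hw
    obtain ⟨w1, w2⟩ := mem_Rep.mp hw
    by_cases h3 : f⁻¹ * w ∈ N
    · rw [hzu w w1 h3, mul_right_comm] at w2
      exact w2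
    · have a1 := (hcos _ (by rw [map_mul, map_inv, hf, hτx])).resolve_left h1
      have a2 := (hcos _ (by rw [map_mul, map_inv, hf, hτw])).resolve_left h3
      have a3 := hzu _ w2 (by
        have e : f⁻¹ * (z * x⁻¹ * w) = f⁻¹ * z * (f⁻¹ * w * f₀⁻¹ * (f⁻¹ * x * f₀⁻¹)⁻¹) := by
          apply Additive.ofMul.injective; simp only [ofMul_mul, ofMul_inv]; abel
        exact e ▸ N.mul_mem hzN (N.mul_mem a2 (N.inv_mem a1)))
      exact absurd (by simpa [mul_assoc, inv_mul_eq_one, eq_comm] using a3) hwx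
  have hsub : c (f * f₀) ⊆ insert (z * ι) (Rep D ι) := by
    intro x hx
    obtain ⟨hx, hxN⟩ := mc.mp hx
    have hτx : τ x = x := by
      have := hNF _ hxN
      rwa [map_mul, map_inv, map_mul, hf, hf₀, mul_right_inj] at this
    rw [mem_insert]
    by_cases h1 : z * z * x⁻¹ = x
    · rcases huniq (z⁻¹ * x) (by
        rw [mul_inv_eq_iff_eq_mul] at h1
        rw [mul_mul_mul_comm, ← h1, ← mul_inv, inv_mul_cancel]) with h | h
      · exact absurd (hdis f f₀ 1 x (mc.mpr ⟨hx, hxN⟩)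
          (mc.mpr ⟨hx, by rw [← inv_mul_eq_one.mp h, mul_one]; exact hzN⟩)) (by simpa using hf₀N)
      · exact Or.inl (by rw [← h, mul_inv_cancel_left])
    right
    obtain ⟨x', hx'⟩ : ∃ x', x' = z * z * x⁻¹ := ⟨_, rfl⟩
    rw [← hx'] at h1
    have hτx' : τ x' = x' := by rw [hx', map_mul, map_mul, map_inv, hτz, hτx]
    have hg : x * x'⁻¹ ≠ 1 := fun h => h1 (mul_inv_eq_one.mp h).symm
    have hτg : τ (x * x'⁻¹) = x * x'⁻¹ := by rw [map_mul, map_inv, hτx, hτx']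
    have hm : x' ∈ Rep D (x * x'⁻¹) := mem_Rep.mpr ⟨hx' ▸ hsym x hx hτx, by simpa using hx⟩
    have hall := hRτ _ hg hτg x' hm hτx'
    obtain ⟨w, hw, hwx⟩ := other (hD _ hg) x'
    have h3 := fix_all (hD _ hg) (f := fun y => z * z * (x * x'⁻¹ * y)⁻¹)
      (fun a b h => by simpa using h)
      (fun y hy => mem_Rep.mpr ⟨hsym _ (mem_Rep.mp hy).2 (by rw [map_mul, hτg, hall y hy]), by
        have : x * x'⁻¹ * (z * z * (x * x'⁻¹ * y)⁻¹) = z * z * y⁻¹ := by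
          apply Additive.ofMul.injective; simp only [ofMul_mul, ofMul_inv]; abel
        rw [this]
        exact hsym _ (mem_Rep.mp hy).1 (hall y hy)⟩) hm (by simp only [inv_mul_cancel_right, ← hx']) w hw
    have h5 : z * z = x * x' := by rw [hx', mul_comm x, inv_mul_cancel_right]
    rcases huniq (w * x'⁻¹) (by
      simp only [h5] at h3
      calc w * x'⁻¹ * (w * x'⁻¹) = w * (x * x' * (x * x'⁻¹ * w)⁻¹)⁻¹ := by
            apply Additive.ofMul.injective; simp only [ofMul_mul, ofMul_inv]; abel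
        _ = 1 := by rw [h3, mul_inv_cancel]) with h | h
    · exact absurd (mul_inv_eq_one.mp h) hwx
    · refine mem_Rep.mpr ⟨hx, ?_⟩
      have h6 := hsym w (mem_Rep.mp hw).1 (hall w hw)
      rw [h5, mul_inv_eq_iff_eq_mul.mp h, mul_inv, inv_eq_of_mul_eq_one_right hι2, mul_comm ι,
        ← mul_assoc, mul_inv_cancel_right, mul_comm] at h6
      exact h6
  have h5 : (c (f * f₀)).card ≤ 3 := (card_le_card hsub).trans
    ((card_insert_le _ _).trans (by rw [hD ι hι1]))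
  rw [← hf2] at hn
  have h6 := Int.Prime.dvd_pow' hp hn
  have h7 : (2 : ℤ) < D.card := by exact_mod_cast h0
  have h8 : ((c (f * f₀)).card - 1 : ℤ) = 0 :=
    Int.eq_zero_of_abs_lt_dvd h6 (abs_lt.mpr ⟨by omega, by omega⟩)
  rw [h8] at hf2
  linarith

end Pool.Agent.Lib.MP_0820eb_co
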