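import Pool.Agent.Lib.MP_0820eb_co.Four

/-!
The Sylow 2-subgroup of an abelian group with a difference set with `λ = 2`.
-/

set_option linter.unusedSectionVars false

open Finset

namespace Pool.Agent.Lib.MP_0820eb_co

variable {G : Type} [CommGroup G] [Fintype G] [DecidableEq G]

theorem two_lt {D : Finset G} (hD : DS D) (h4 : 4 ∣ Fintype.card G) : 2 < D.card := by
  have h1 := count hD
  have h2 : 4 ≤ Fintype.card G := Nat.le_of_dvd Fintype.card_pos h4
  by_contra h
  have h3 : D.card ≤ 2 := not_lt.mp h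
  generalize D.card = k at h1 h3
  interval_cases k <;> omega

theorem odd_part {D : Finset G} (hD : DS D) (h4 : 4 ∣ Fintype.card G) :
    ∃ μ : ℕ, Odd μ ∧ ((D.card : ℤ) - 2 = μ ∨ (D.card : ℤ) - 2 = 4 * μ) := by
  have h1 := count hD
  have h0 := two_lt hD h4
  obtain ⟨w, hw⟩ := h4
  obtain ⟨n, hn⟩ : ∃ n, D.card = n + 2 := ⟨D.card - 2, by omega⟩
  rw [hw, hn] at h1
  rw [hn]
  push_cast at h1 ⊢
  obtain ⟨q, hq | hq⟩ := Nat.even_or_odd' n
  · obtain ⟨r, hr | hr⟩ := Nat.even_or_odd' q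
    · obtain ⟨s, hs | hs⟩ := Nat.even_or_odd' r
      · exfalso
        subst hs hr hq
        push_cast at h1
        have : (16 * s * s + 6 * s + 1 : ℤ) = 2 * w := by linarith
        have h2 : (16 * s * s : ℤ) = 2 * (8 * s * s) := by ring
        omega
      · exact ⟨r, ⟨s, hs⟩, Or.inr (by subst hr hq; push_cast; ring)⟩
    · exfalso
      subst hr hq
      push_cast at h1
      have : (8 * r * r + 14 * r + 7 : ℤ) = 4 * w := by linarith
      have h2 : (8 * r * r : ℤ) = 2 * (4 * r * r) := by ring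
      omega
  · exact ⟨n, ⟨q, hq⟩, Or.inl (by ring)⟩

theorem pow_cases {a b m : ℕ} {c : ℤ} (hc : c = 2 ∨ c = 4) (hm : (2 * m : ℤ) = c * (2 * (b : ℤ) + 1))
    (h : (m : ℤ) * m - m + 2 ∣ 2 ^ a) (h' : (m : ℤ) * m + m + 2 ∣ 2 ^ a) : (m : ℤ) * m - m + 2 = c := by
  have p1 : 0 < (m : ℤ) * m - m + 2 := by nlinarith [sq_nonneg ((m : ℤ) - 1)]
  have p2 : 0 < (m : ℤ) * m + m + 2 := by positivity
  obtain ⟨x, hx⟩ := Int.eq_ofNat_of_zero_le p1.le
  obtain ⟨y, hy⟩ := Int.eq_ofNat_of_zero_le p2.le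
  rw [hx] at h ⊢
  rw [hy] at h'
  obtain ⟨i, -, rfl⟩ := (Nat.dvd_prime_pow Nat.prime_two).mp (by exact_mod_cast h : x ∣ 2 ^ a)
  obtain ⟨j, -, rfl⟩ := (Nat.dvd_prime_pow Nat.prime_two).mp (by exact_mod_cast h' : y ∣ 2 ^ a)
  push_cast at hx hy ⊢
  have e : (2 : ℤ) ^ j = 2 ^ i + c * (2 * b + 1) := by linarith
  have hm0 : (0 : ℤ) ≤ m * m - m := by nlinarith [sq_nonneg ((m : ℤ) - 1), sq_nonneg (m : ℤ)]
  have hb : (0 : ℤ) ≤ b := by positivity
  rcases i with _ | _ | _ | i <;> rcases j with _ | _ | _ | j <;>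
    simp only [pow_succ, pow_zero] at e hx hy ⊢ <;> rcases hc with rfl | rfl <;> omega

theorem two_group {D : Finset G} (hD : DS D) (h4 : 4 ∣ Fintype.card G) {s : ℕ}
    (hs : Fintype.card G = 2 ^ s) : Fintype.card G = 4 ∨ Fintype.card G = 16 := by
  obtain ⟨s, rfl⟩ : ∃ t, s = t + 1 := by
    cases s with
    | zero => rw [hs] at h4; norm_num at h4
    | succ t => exact ⟨t, rfl⟩
  obtain ⟨H, hH⟩ := Sylow.exists_subgroup_card_pow_prime (G := G) 2 (n := s)
    (by rw [Nat.card_eq_fintype_card, hs]; exact pow_dvd_pow 2 (Nat.le_succ s))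
  have hi : H.index = 2 := by
    have := H.card_mul_index
    rw [hH, Nat.card_eq_fintype_card, hs, pow_succ] at this
    exact Nat.eq_of_mul_eq_mul_left (by positivity) this
  obtain ⟨m', hm'⟩ := square_of_index_two hD H hi
  obtain ⟨m, hm⟩ : ∃ m : ℕ, (D.card : ℤ) - 2 = m * m :=
    ⟨m'.natAbs, by rw [hm', Int.natAbs_mul_self']⟩
  have h1 := count hD
  have hk : (D.card : ℤ) = m * m + 2 := by linarith
  have h2 : ((m : ℤ) * m - m + 2) * (m * m + m + 2) = 2 * Fintype.card G := by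
    rw [hk] at h1; linarith
  have h3 : ((m : ℤ) * m - m + 2) * (m * m + m + 2) = 2 ^ (s + 2) := by
    rw [h2, hs]; push_cast; ring
  obtain ⟨μ, hμ, hμ'⟩ := odd_part hD h4
  rw [hm] at hμ'
  rcases hμ' with h | h
  · have h5 : Odd (m * m) := by
      have : m * m = μ := by exact_mod_cast h
      rwa [this]
    obtain ⟨b, hb⟩ := (Nat.odd_mul.mp h5).1
    have h6 := pow_cases (m := m) (b := b) (Or.inl rfl) (by rw [hb]; push_cast; ring)
      (Dvd.intro _ h3) (Dvd.intro_left _ h3)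
    have h7 : (m : ℤ) = 1 := by
      have : (m : ℤ) * (m - 1) = 0 := by linarith
      rcases mul_eq_zero.mp this with h | h <;> omega
    rw [h7] at h2
    omega
  · have h5 : m * m = 4 * μ := by exact_mod_cast h
    obtain ⟨q, hq | hq⟩ := Nat.even_or_odd' m
    · have h8 : q * q = μ := by subst hq; linarith
      obtain ⟨b, hb⟩ := (Nat.odd_mul.mp (h8 ▸ hμ)).1
      have h6 := pow_cases (m := m) (b := b) (Or.inr rfl) (by rw [hq, hb]; push_cast; ring)
        (Dvd.intro _ h3) (Dvd.intro_left _ h3)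
      have h7 : (m : ℤ) = 2 := by
        have : ((m : ℤ) + 1) * (m - 2) = 0 := by linarith
        rcases mul_eq_zero.mp this with h | h <;> omega
      rw [h7] at h2
      omega
    · exfalso
      subst hq
      have : (2 * q + 1) * (2 * q + 1) = 2 * (2 * q * q + 2 * q) + 1 := by ring
      omega

theorem two_power_order {D : Finset G} (hD : DS D) (h4 : 4 ∣ Fintype.card G) {μ : ℕ} (hμ : Odd μ)
    (hμD : ∀ x ∈ D, x ^ μ ∈ D) {n : ℤ} (hn : n = μ ∨ n = 4 * μ)
    (hv : (2 * Fintype.card G : ℤ) ∣ n * n + 3 * n + 4) {J : ℕ} (hJ : ∀ x : G, x ^ μ ^ 2 ^ J = x) :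
    Fintype.card G = 4 ∨ Fintype.card G = 16 := by
  have hpow : ∀ i, ∀ x ∈ D, x ^ μ ^ i ∈ D := by
    intro i
    induction i with
    | zero => simp
    | succ i ih => exact fun x hx => by rw [pow_succ, pow_mul]; exact hμD _ (ih x hx)
  obtain ⟨ν, hν, hν'⟩ := odd_part hD h4
  have h1 := count hD
  by_cases hν1 : ν = 1
  · subst hν1
    rcases hν' with h | h
    · have : (D.card : ℤ) = 3 := by push_cast at h; linarith
      rw [this] at h1; omega
    · have : (D.card : ℤ) = 6 := by push_cast at h; linarith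
      rw [this] at h1; omega
  obtain ⟨p, hp, hpν⟩ := Nat.exists_prime_and_dvd hν1
  have hp2 : p ≠ 2 := by rintro rfl; exact (Nat.not_even_iff_odd.mpr hν) (even_iff_two_dvd.mpr hpν)
  have hpn : (p : ℤ) ∣ (D.card : ℤ) - 2 := by
    have := Int.natCast_dvd_natCast.mpr hpν
    rcases hν' with h | h <;> rw [h]
    exacts [this, this.mul_left 4]
  have key : ∀ j, (∀ x : G, x ^ μ ^ 2 ^ (j + 1) = x) → ∀ x : G, x ^ μ ^ 2 = x := by
    intro j
    induction j with
    | zero => simp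
    | succ j ih =>
      intro h
      refine ih fun x => ?_
      have := no_four hD hp hp2 hpn (two_lt hD h4) (powMonoidHom (μ ^ 2 ^ j)) (hpow _)
        (fun x => by
          simp only [powMonoidHom_apply, ← pow_mul, ← pow_add]
          rw [show 2 ^ j + 2 ^ j + 2 ^ j + 2 ^ j = 2 ^ (j + 1 + 1) by ring]
          exact h x)
        (fun x hx => by
          obtain ⟨b, hb⟩ := hμ.pow (n := 2 ^ j)
          rw [powMonoidHom_apply, hb, pow_succ, pow_mul, sq, hx, one_pow, one_mul])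
        (Dvd.dvd.trans (by norm_num) h4) x
      simp only [powMonoidHom_apply, ← pow_mul, ← pow_add] at this
      rwa [show 2 ^ (j + 1) = 2 ^ j + 2 ^ j by ring]
  have h2 := key J (fun x => by rw [pow_succ, pow_mul, sq, pow_mul, hJ, hJ])
  refine two_group hD h4 (Nat.eq_prime_pow_of_unique_prime_dvd (p := 2) Fintype.card_ne_zero
    fun {r} hr hrv => ?_)
  have := Fact.mk hr
  obtain ⟨x, hx⟩ := exists_prime_orderOf_dvd_card r hrv
  have h3 : μ ^ 2 ≡ 1 [MOD r] := by
    rw [← hx, ← pow_eq_pow_iff_modEq, pow_one]; exact h2 x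
  have h5 : (r : ℤ) ∣ ((μ : ℤ) - 1) * (μ + 1) := by
    have := h3.symm.dvd
    push_cast at this
    rwa [show ((μ : ℤ) - 1) * (μ + 1) = μ ^ 2 - 1 by ring]
  have h6 : (r : ℤ) ∣ n * n + 3 * n + 4 :=
    ((Int.natCast_dvd_natCast.mpr hrv).mul_left 2).trans hv
  have h7 : (r : ℤ) ∣ 2 ^ 5 := by
    rcases (Nat.prime_iff_prime_int.mp hr).dvd_or_dvd h5 with h | h <;> rcases hn with rfl | rfl
    · have := (h6.sub (h.mul_right (μ + 4))).mul_left 4
      rwa [show (4 : ℤ) * (μ * μ + 3 * μ + 4 - (μ - 1) * (μ + 4)) = 2 ^ 5 by ring] at this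
    · have := h6.sub (h.mul_right (16 * μ + 28))
      rwa [show (4 * μ * (4 * μ) + 3 * (4 * μ) + 4 - (μ - 1) * (16 * μ + 28) : ℤ) = 2 ^ 5 by ring]
        at this
    · have := (h6.sub (h.mul_right (μ + 2))).mul_left 16
      rwa [show (16 : ℤ) * (μ * μ + 3 * μ + 4 - (μ + 1) * (μ + 2)) = 2 ^ 5 by ring] at this
    · have := (h6.sub (h.mul_right (16 * μ - 4))).mul_left 4
      rwa [show (4 : ℤ) * (4 * μ * (4 * μ) + 3 * (4 * μ) + 4 - (μ + 1) * (16 * μ - 4)) = 2 ^ 5 by
        ring] at this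
  exact (Nat.prime_dvd_prime_iff_eq hr Nat.prime_two).mp
    (hr.dvd_of_dvd_pow (n := 5) (by exact_mod_cast h7))

theorem sylow_card {D : Finset G} (hD : DS D) (h4 : 4 ∣ Fintype.card G) :
    Fintype.card G % 8 = 4 ∨ Fintype.card G % 32 = 16 := by
  classical
  obtain ⟨μ, hμ, hn⟩ := odd_part hD h4
  have h0 := two_lt hD h4
  have hμn : (μ : ℤ) ∣ (D.card : ℤ) - 2 := by
    rcases hn with h | h <;> rw [h]
    exact Dvd.intro_left 4 rfl
  have hc : (Nat.card G).Coprime μ := by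
    rw [Nat.card_eq_fintype_card]
    refine Nat.coprime_of_dvd fun p hp h1 h2 => not_dvd_card hD hp ?_
      ((Int.natCast_dvd_natCast.mpr h2).trans hμn) h1
    rintro rfl
    exact (Nat.not_even_iff_odd.mpr hμ) (even_iff_two_dvd.mpr h2)
  obtain ⟨E, hE, hEc, hEμ⟩ := exists_fixed hD h0 hμ hμn hc
  have hpow : ∀ i, ∀ x ∈ E, x ^ μ ^ i ∈ E := by
    intro i
    induction i with
    | zero => simp
    | succ i ih => exact fun x hx => by rw [pow_succ, pow_mul]; exact hEμ _ (ih x hx)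
  set v := Nat.card G with hv
  let s : G →* G := powMonoidHom (μ ^ 2 ^ v)
  let H : Subgroup G := s.eqLocus (MonoidHom.id G)
  have hle : ∀ j, 2 ^ j ≤ v → 2 ^ j ∣ 2 ^ v := fun j hj =>
    pow_dvd_pow 2 (Nat.lt_two_pow_self.le.trans hj)
  have hvpos : 0 < v := Nat.card_pos
  obtain ⟨j, o, ho, hjo⟩ := Nat.exists_eq_two_pow_mul_odd (Nat.totient_pos.mpr hvpos).ne'
  have hso : ∀ x : G, x ^ (μ ^ 2 ^ v) ^ o = x := by
    intro x
    obtain ⟨c, hc'⟩ := hle j ((Nat.le_of_dvd (Nat.totient_pos.mpr hvpos)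
      (Dvd.intro _ hjo.symm)).trans (Nat.totient_le v))
    have h1 : (μ ^ 2 ^ v) ^ o ≡ 1 [MOD v] := by
      rw [← pow_mul, hc', mul_right_comm, ← hjo, pow_mul]
      simpa using (Nat.ModEq.pow_totient hc.symm).pow c
    conv_rhs => rw [← pow_one x]
    exact pow_eq_pow_iff_modEq.mpr (h1.of_dvd (orderOf_dvd_natCard x))
  have hsi : Function.Injective s := (powCoprime (hc.pow_right _)).injective
  have hodd : ∀ x, s (s x) = x → s x = x := by
    intro x hx
    obtain ⟨b, hb⟩ := ho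
    have h1 : ∀ i, x ^ (μ ^ 2 ^ v) ^ (2 * i) = x := by
      intro i
      induction i with
      | zero => simp
      | succ i ih => rw [mul_add, pow_add, pow_mul x, ih, mul_one, sq, pow_mul]; exact hx
    have h2 := hso x
    rw [hb, pow_succ, pow_mul x, h1] at h2
    exact h2
  let E' : Finset H := E.subtype (· ∈ H)
  have hE' : DS E' := by
    intro g hg
    have hg' : (g : G) ≠ 1 := fun h => hg (Subtype.ext h)
    have hR : ∀ y ∈ Rep E g, s y ∈ Rep E g := fun y hy => mem_Rep.mpr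
      ⟨hpow _ y (mem_Rep.mp hy).1, by
        have h1 : s g = g := g.2
        rw [← h1, ← map_mul]
        exact hpow _ _ (mem_Rep.mp hy).2⟩
    have hin : ∀ y ∈ Rep E g, y ∈ H := by
      intro y hy
      by_contra h1
      have h2 : y ≠ s y := fun h => h1 h.symm
      rcases pair_mem (hE g hg').le hy (hR y hy) (hR _ (hR y hy)) h2 with h | h
      · exact h2 (hodd y h).symm
      · exact h2 (hsi h).symm
    rw [← hE g hg', ← filter_true_of_mem hin, ← card_subtype]
    congr 1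
    ext y
    simp [mem_Rep, E']
  have hidx : ¬ 2 ∣ H.index := by
    let P : Sylow 2 G := default
    refine fun h => P.not_dvd_index (h.trans (Subgroup.index_dvd_of_le fun x hx => ?_))
    obtain ⟨a, ha⟩ := IsPGroup.iff_orderOf.mp P.isPGroup' ⟨x, hx⟩
    rw [Subgroup.orderOf_mk] at ha
    change x ^ μ ^ 2 ^ v = x
    conv_rhs => rw [← pow_one x]
    rw [pow_eq_pow_iff_modEq, ha]
    rcases a with _ | a
    · simp [Nat.modEq_one]
    obtain ⟨c, hc'⟩ := hle a ((Nat.pow_le_pow_right two_pos (Nat.le_succ a)).trans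
      (Nat.le_of_dvd hvpos (ha ▸ orderOf_dvd_natCard x)))
    have h1 := (Nat.ModEq.pow_totient (x := μ) (n := 2 ^ (a + 1))
      ((Nat.coprime_two_right.mpr hμ).pow_right _)).pow c
    rw [Nat.totient_prime_pow_succ Nat.prime_two] at h1
    rw [hc', pow_mul]
    simpa using h1
  have hmul := H.card_mul_index
  rw [Nat.card_eq_fintype_card, Nat.card_eq_fintype_card] at hmul
  have h4' : 4 ∣ Fintype.card H := by
    refine Nat.Coprime.dvd_of_dvd_mul_right (n := H.index) ?_ (hmul ▸ h4)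
    exact ((Nat.Prime.coprime_iff_not_dvd Nat.prime_two).mpr hidx).pow_left 2
  have h5 := two_power_order hE' h4' hμ (fun x hx => by
      simpa [E'] using hEμ _ (mem_subtype.mp hx)) hn (by
      have h1 := count hD
      refine ⟨H.index, ?_⟩
      rw [← hmul] at h1
      push_cast at h1
      linear_combination h1) (J := v) (fun x => Subtype.ext x.2)
  rcases h5 with h | h <;> rw [h] at hmul <;> omega

end Pool.Agent.Lib.MP_0820eb_co
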