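import Pool.Agent.Lib.MP_0820eb_co.Sylow

/-!
The Sylow 2-subgroup carries a sub-difference set cut out by one coset.
-/

set_option linter.unusedSectionVars false

open Finset

namespace Pool.Agent.Lib.MP_0820eb_co

variable {G : Type} [CommGroup G] [Fintype G] [DecidableEq G]

theorem exists_fixed_translate {D : Finset G} (hD : DS D) (h0 : 2 < D.card) {t : ℕ} (ht : Odd t)
    (hn : (t : ℤ) ∣ (D.card : ℤ) - 2) (hc : (Nat.card G).Coprime t) :
    ∃ h : G, ∀ x ∈ D.image (· * h), x ^ t ∈ D.image (· * h) := by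
  obtain ⟨g, hg⟩ := multiplier hD h0 ht hn
  obtain ⟨s, rfl⟩ : ∃ s, t = s + 1 := ⟨t - 1, by have := ht.pos; omega⟩
  obtain ⟨h, rfl⟩ := fix_translate hD h0 hc hg
  refine ⟨h, fun x hx => ?_⟩
  obtain ⟨y, hy, rfl⟩ := mem_image.mp hx
  exact mem_image.mpr ⟨_, hg y hy, by rw [mul_pow, pow_succ h, mul_assoc]⟩

theorem sylow_sub {D : Finset G} (hD : DS D) (h4 : 4 ∣ Fintype.card G) :
    ∃ H : Subgroup G, ¬ 2 ∣ H.index ∧ (Nat.card H = 4 ∨ Nat.card H = 16) ∧
      ∃ h : G, ∀ g ∈ H, g ≠ 1 → ∀ y ∈ Rep D g, y * h ∈ H := by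
  classical
  obtain ⟨μ, hμ, hn⟩ := odd_part hD h4
  have h0 := two_lt hD h4
  have hμn : (μ : ℤ) ∣ (D.card : ℤ) - 2 := by
    rcases hn with h | h <;> rw [h]
    exact Dvd.intro_left 4 rfl
  have hc : (Nat.card G).Coprime μ := by
    rw [Nat.card_eq_fintype_card]
    refine Nat.coprime_of_dvd fun p hp h1 h2 => not_dvd_card hD hp ?_
      ((Int.natCast_dvd_natCast.mpr h2).trans hμn) h1
    rintro rfl
    exact (Nat.not_even_iff_odd.mpr hμ) (even_iff_two_dvd.mpr h2)
  obtain ⟨h₀, hEμ⟩ := exists_fixed_translate hD h0 hμ hμn hc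
  have hE : DS (D.image (· * h₀)) := hD.translate h₀
  have hmem : ∀ y, y ∈ D → y * h₀ ∈ D.image (· * h₀) := fun y hy => mem_image.mpr ⟨y, hy, rfl⟩
  generalize D.image (· * h₀) = E at hE hEμ hmem
  have hpow : ∀ i, ∀ x ∈ E, x ^ μ ^ i ∈ E := by
    intro i
    induction i with
    | zero => simp
    | succ i ih => exact fun x hx => by rw [pow_succ, pow_mul]; exact hEμ _ (ih x hx)
  set v := Nat.card G with hv
  let s : G →* G := powMonoidHom (μ ^ 2 ^ v)
  let H : Subgroup G := s.eqLocus (MonoidHom.id G)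
  have hle : ∀ j, 2 ^ j ≤ v → 2 ^ j ∣ 2 ^ v := fun j hj =>
    pow_dvd_pow 2 (Nat.lt_two_pow_self.le.trans hj)
  have hvpos : 0 < v := Nat.card_pos
  obtain ⟨j, o, ho, hjo⟩ := Nat.exists_eq_two_pow_mul_odd (Nat.totient_pos.mpr hvpos).ne'
  have hso : ∀ x : G, x ^ (μ ^ 2 ^ v) ^ o = x := by
    intro x
    obtain ⟨c, hc'⟩ := hle j ((Nat.le_of_dvd (Nat.totient_pos.mpr hvpos)
      (Dvd.intro _ hjo.symm)).trans (Nat.totient_le v))
    have h1 : (μ ^ 2 ^ v) ^ o ≡ 1 [MOD v] := by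
      rw [← pow_mul, hc', mul_right_comm, ← hjo, pow_mul]
      simpa using (Nat.ModEq.pow_totient hc.symm).pow c
    conv_rhs => rw [← pow_one x]
    exact pow_eq_pow_iff_modEq.mpr (h1.of_dvd (orderOf_dvd_natCard x))
  have hsi : Function.Injective s := (powCoprime (hc.pow_right _)).injective
  have hodd : ∀ x, s (s x) = x → s x = x := by
    intro x hx
    obtain ⟨b, hb⟩ := ho
    have h1 : ∀ i, x ^ (μ ^ 2 ^ v) ^ (2 * i) = x := by
      intro i
      induction i with
      | zero => simp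
      | succ i ih => rw [mul_add, pow_add, pow_mul x, ih, mul_one, sq, pow_mul]; exact hx
    have h2 := hso x
    rw [hb, pow_succ, pow_mul x, h1] at h2
    exact h2
  have hin : ∀ g ∈ H, g ≠ 1 → ∀ y ∈ Rep E g, y ∈ H := by
    intro g hgH hg' y hy
    have hR : ∀ y ∈ Rep E g, s y ∈ Rep E g := fun y hy => mem_Rep.mpr
      ⟨hpow _ y (mem_Rep.mp hy).1, by
        have h1 : s g = g := hgH
        rw [← h1, ← map_mul]
        exact hpow _ _ (mem_Rep.mp hy).2⟩
    by_contra h1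
    have h2 : y ≠ s y := fun h => h1 h.symm
    rcases pair_mem (hE g hg').le hy (hR y hy) (hR _ (hR y hy)) h2 with h | h
    · exact h2 (hodd y h).symm
    · exact h2 (hsi h).symm
  let E' : Finset H := E.subtype (· ∈ H)
  have hE' : DS E' := by
    intro g hg
    have hg' : (g : G) ≠ 1 := fun h => hg (Subtype.ext h)
    rw [← hE g hg', ← filter_true_of_mem (hin g g.2 hg'), ← card_subtype]
    congr 1
    ext y
    simp [mem_Rep, E']
  have hidx : ¬ 2 ∣ H.index := by
    let P : Sylow 2 G := default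
    refine fun h => P.not_dvd_index (h.trans (Subgroup.index_dvd_of_le fun x hx => ?_))
    obtain ⟨a, ha⟩ := IsPGroup.iff_orderOf.mp P.isPGroup' ⟨x, hx⟩
    rw [Subgroup.orderOf_mk] at ha
    change x ^ μ ^ 2 ^ v = x
    conv_rhs => rw [← pow_one x]
    rw [pow_eq_pow_iff_modEq, ha]
    rcases a with _ | a
    · simp [Nat.modEq_one]
    obtain ⟨c, hc'⟩ := hle a ((Nat.pow_le_pow_right two_pos (Nat.le_succ a)).trans
      (Nat.le_of_dvd hvpos (ha ▸ orderOf_dvd_natCard x)))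
    have h1 := (Nat.ModEq.pow_totient (x := μ) (n := 2 ^ (a + 1))
      ((Nat.coprime_two_right.mpr hμ).pow_right _)).pow c
    rw [Nat.totient_prime_pow_succ Nat.prime_two] at h1
    rw [hc', pow_mul]
    simpa using h1
  have hmul := H.card_mul_index
  rw [Nat.card_eq_fintype_card, Nat.card_eq_fintype_card] at hmul
  have h4' : 4 ∣ Fintype.card H := by
    refine Nat.Coprime.dvd_of_dvd_mul_right (n := H.index) ?_ (hmul ▸ h4)
    exact ((Nat.Prime.coprime_iff_not_dvd Nat.prime_two).mpr hidx).pow_left 2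
  have h5 := two_power_order hE' h4' hμ (fun x hx => by
      simpa [E'] using hEμ _ (mem_subtype.mp hx)) hn (by
      have h1 := count hD
      refine ⟨H.index, ?_⟩
      rw [← hmul] at h1
      push_cast at h1
      linear_combination h1) (J := v) (fun x => Subtype.ext x.2)
  refine ⟨H, hidx, by rwa [Nat.card_eq_fintype_card], h₀, fun g hgH hg y hy => ?_⟩
  refine hin g hgH hg _ (mem_Rep.mpr ⟨hmem y (mem_Rep.mp hy).1, ?_⟩)
  rw [← mul_assoc]
  exact hmem _ (mem_Rep.mp hy).2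

end Pool.Agent.Lib.MP_0820eb_co
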